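import Mathlib

set_option autoImplicit false

/-!
# Generic smoothness for linear systems of polynomials, in characteristic zero
-/

namespace Pool.Agent.H248R5

open MvPolynomial TensorProduct

/-- Derivations extend along formally etale algebras. -/
theorem exists_derivation {K A L : Type*} [Field K] [CommRing A] [Algebra K A] [Field L]
    [Algebra K L] [Algebra A L] [IsScalarTower K A L] [Algebra.FormallyEtale A L]
    (D : Derivation K A A) :
    ∃ D' : Derivation K L L, ∀ a, D' (algebraMap A L a) = algebraMap A L (D a) := by
  let e := KaehlerDifferential.tensorKaehlerEquivOfFormallyEtale K A L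
  let φ : (Ω[L⁄K]) →ₗ[L] L :=
    (TensorProduct.AlgebraTensorModule.rid A L L).toLinearMap ∘ₗ
      (D.liftKaehlerDifferential.baseChange L) ∘ₗ e.symm.toLinearMap
  refine ⟨φ.compDer (KaehlerDifferential.D K L), fun a => ?_⟩
  have h1 : e.symm (KaehlerDifferential.D K L (algebraMap A L a)) =
      1 ⊗ₜ KaehlerDifferential.D K A a :=
    KaehlerDifferential.tensorKaehlerEquivOfFormallyEtale_symm_D_algebraMap K A L a
  change φ (KaehlerDifferential.D K L (algebraMap A L a)) = _
  simp only [φ, LinearMap.comp_apply, LinearEquiv.coe_coe]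
  rw [h1, LinearMap.baseChange_tmul, Derivation.liftKaehlerDifferential_comp_D,
    TensorProduct.AlgebraTensorModule.rid_tmul, Algebra.smul_def, mul_one]

/-- The chain rule. -/
theorem derivation_aeval {K L : Type*} [Field K] [Field L] [Algebra K L] {σ : Type*} [Fintype σ]
    (D : Derivation K L L) (q : σ → L) (p : MvPolynomial σ K) :
    D (aeval q p) = ∑ a, aeval q (pderiv a p) * D (q a) := by
  classical
  induction p using MvPolynomial.induction_on with
  | C c =>
    rw [algHom_C, Derivation.map_algebraMap]
    simp
  | add p q hp hq =>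
    simp only [map_add, hp, hq, add_mul, Finset.sum_add_distrib]
  | mul_X p i hp =>
    simp only [map_mul, Derivation.leibniz, hp, aeval_X, smul_eq_mul, Derivation.leibniz,
      pderiv_X, map_add, add_mul, Finset.sum_add_distrib]
    have h1 : ∑ x, (aeval q) p * (aeval q) (Pi.single (M := fun _ => MvPolynomial σ K) x 1 i) *
        D (q x) = (aeval q) p * D (q i) := by
      rw [Finset.sum_eq_single i]
      · simp
      · intro x _ hx
        rw [Pi.single_eq_of_ne (Ne.symm hx)]
        simp
      · intro h
        exact absurd (Finset.mem_univ i) h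
    rw [h1, Finset.mul_sum]
    congr 1
    exact Finset.sum_congr rfl fun x _ => by ring

/-- The differential argument. -/
theorem core {K L : Type*} [Field K] [Field L] [Algebra K L] {σ : Type*} [Fintype σ] {N : ℕ}
    (b : Fin N → MvPolynomial σ K) (t : Fin N → L) (D : Fin N → Derivation K L L)
    (hD : ∀ i j, D i (t j) = if i = j then 1 else 0) (q : σ → L)
    (h1 : ∑ i, t i * aeval q (b i) = 0)
    (h2 : ∀ a, ∑ i, t i * aeval q (pderiv a (b i)) = 0) (j : Fin N) : aeval q (b j) = 0 := by
  have h3 : D j (∑ i, t i * aeval q (b i)) = 0 := by rw [h1, map_zero]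
  rw [map_sum] at h3
  have h4 : ∀ i, D j (t i * aeval q (b i)) =
      (∑ a, t i * aeval q (pderiv a (b i)) * D j (q a)) + if j = i then aeval q (b i) else 0 := by
    intro i
    rw [Derivation.leibniz, hD, derivation_aeval, smul_eq_mul, smul_eq_mul, Finset.mul_sum]
    congr 1
    · exact Finset.sum_congr rfl fun x _ => by ring
    · split_ifs <;> simp
  rw [Finset.sum_congr rfl fun i _ => h4 i, Finset.sum_add_distrib, Finset.sum_comm] at h3
  have h5 : ∑ a, ∑ i, t i * aeval q (pderiv a (b i)) * D j (q a) = 0 := by
    refine Finset.sum_eq_zero fun a _ => ?_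
    rw [← Finset.sum_mul, h2 a, zero_mul]
  rw [h5, zero_add, Finset.sum_ite_eq] at h3
  simpa using h3

/-- The generic statement: elimination of the point. -/
theorem bertini_aux {K : Type*} [Field K] [CharZero K] {σ : Type*} [Fintype σ] {N : ℕ}
    (b : Fin N → MvPolynomial σ K) (j : Fin N) :
    ∃ s : MvPolynomial (Fin N) K, s ≠ 0 ∧
      (C s : MvPolynomial (Option σ) (MvPolynomial (Fin N) K)) ∈
        Ideal.span (Set.range (fun o : Option (Option σ) => match o with
          | none => (1 - X none * aeval (fun a => X (some a)) (b j) :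
              MvPolynomial (Option σ) (MvPolynomial (Fin N) K))
          | some none => ∑ i, C (X i) * aeval (fun a => X (some a)) (b i)
          | some (some a) => ∑ i, C (X i) * aeval (fun a => X (some a)) (pderiv a (b i)))) := by
  classical
  set J := Ideal.span (Set.range (fun o : Option (Option σ) => match o with
          | none => (1 - X none * aeval (fun a => X (some a)) (b j) :
              MvPolynomial (Option σ) (MvPolynomial (Fin N) K))
          | some none => ∑ i, C (X i) * aeval (fun a => X (some a)) (b i)
          | some (some a) => ∑ i, C (X i) * aeval (fun a => X (some a)) (pderiv a (b i)))) with hJ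
  by_contra hcon
  push Not at hcon
  let A := MvPolynomial (Fin N) K
  let F := FractionRing A
  let B := MvPolynomial (Option σ) A
  let BF := MvPolynomial (Option σ) F
  have hdis : Disjoint (((nonZeroDivisors A).map (C (σ := Option σ)) : Submonoid B) : Set B)
      (J : Set B) := by
    rw [Set.disjoint_left]
    rintro _ ⟨s, hs, rfl⟩ hsJ
    exact hcon s (nonZeroDivisors.ne_zero hs) hsJ
  let _ : Algebra B BF := MvPolynomial.algebraMvPolynomial
  have hmap : ∀ x : B, algebraMap B BF x = MvPolynomial.map (algebraMap A F) x := fun x => by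
    rw [MvPolynomial.algebraMap_def]
  have hne : J.map (algebraMap B BF) ≠ ⊤ :=
    (IsLocalization.map_algebraMap_ne_top_iff_disjoint
      ((nonZeroDivisors A).map (C (σ := Option σ))) BF J).2 hdis
  obtain ⟨m, hm, hJm⟩ := Ideal.exists_le_maximal _ hne
  let _ : Field (BF ⧸ m) := Ideal.Quotient.field m
  have : Algebra.FiniteType F (BF ⧸ m) :=
    Algebra.FiniteType.of_surjective (Ideal.Quotient.mkₐ F m) Ideal.Quotient.mk_surjective
  have : Module.Finite F (BF ⧸ m) := finite_of_finite_type_of_isJacobsonRing F (BF ⧸ m)
  have : Algebra.FormallyEtale F (BF ⧸ m) := Algebra.FormallyEtale.of_isSeparable F (BF ⧸ m)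
  have : Algebra.FormallyEtale A F :=
    Algebra.FormallyEtale.of_isLocalization (nonZeroDivisors A)
  have : Algebra.FormallyEtale A (BF ⧸ m) := Algebra.FormallyEtale.comp A F (BF ⧸ m)
  have hex : ∀ i : Fin N, ∃ D' : Derivation K (BF ⧸ m) (BF ⧸ m),
      ∀ a : A, D' (algebraMap A (BF ⧸ m) a) = algebraMap A (BF ⧸ m) (pderiv i a) :=
    fun i => exists_derivation (pderiv i)
  choose D hD using hex
  let q : σ → BF ⧸ m := fun a => Ideal.Quotient.mk m (X (some a))
  let t : Fin N → BF ⧸ m := fun i => algebraMap A (BF ⧸ m) (X i)
  -- the ring homomorphism from the generic polynomial ring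
  let ψ : B →+* BF ⧸ m := (Ideal.Quotient.mk m).comp (algebraMap B BF)
  have hψ0 : ∀ x ∈ J, ψ x = 0 := by
    intro x hx
    refine Ideal.Quotient.eq_zero_iff_mem.2 (hJm ?_)
    exact Ideal.mem_map_of_mem _ hx
  have hψX : ∀ a, ψ (X (some a)) = q a := by
    intro a
    change Ideal.Quotient.mk m (algebraMap B BF (X (some a))) = _
    rw [hmap, map_X]
  have hψC : ∀ a : A, ψ (C a) = algebraMap A (BF ⧸ m) a := by
    intro a
    change Ideal.Quotient.mk m (algebraMap B BF (C a)) = _
    rw [hmap, map_C]
    rfl
  have hψa : ∀ p : MvPolynomial σ K, ψ (aeval (fun a => X (some a)) p) = aeval q p := by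
    intro p
    induction p using MvPolynomial.induction_on with
    | C c =>
      rw [algHom_C, algHom_C]
      have : (algebraMap K B c) = C (C c) := rfl
      rw [this, hψC]
      have h2 : (C c : A) = algebraMap K A c := rfl
      rw [h2, ← IsScalarTower.algebraMap_apply]
    | add p q hp hq => simp only [map_add, hp, hq]
    | mul_X p i hp => simp only [map_mul, hp, aeval_X, hψX]
  have k1 : ∑ i, t i * aeval q (b i) = 0 := by
    have h := hψ0 _ (Ideal.subset_span ⟨some none, rfl⟩)
    simp only [map_sum, map_mul, hψa, hψC] at h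
    exact h
  have k2 : ∀ a, ∑ i, t i * aeval q (pderiv a (b i)) = 0 := by
    intro a
    have h := hψ0 _ (Ideal.subset_span ⟨some (some a), rfl⟩)
    simp only [map_sum, map_mul, hψa, hψC] at h
    exact h
  have k3 : aeval q (b j) = 0 := by
    refine core b t D (fun i l => ?_) q k1 k2 j
    change D i (algebraMap A (BF ⧸ m) (X l)) = _
    rw [hD, pderiv_X]
    by_cases hil : i = l
    · subst hil
      rw [Pi.single_eq_same, if_pos rfl, map_one]
    · rw [Pi.single_eq_of_ne (Ne.symm hil), if_neg hil, map_zero]
  have h := hψ0 _ (Ideal.subset_span ⟨none, rfl⟩)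
  simp only [map_sub, map_one, map_mul, hψa, k3, mul_zero, sub_zero] at h
  exact one_ne_zero h

/-- Generic smoothness: a general member of a linear system of polynomials is smooth outside the
common zeros of the system. -/
theorem bertini {K : Type*} [Field K] [CharZero K] {σ : Type*} [Fintype σ] {N : ℕ}
    (b : Fin N → MvPolynomial σ K) :
    ∃ Φ : MvPolynomial (Fin N) K, Φ ≠ 0 ∧ ∀ t : Fin N → K, eval t Φ ≠ 0 → ∀ Q : σ → K,
      eval Q (∑ i, t i • b i) = 0 → (∀ a, eval Q (pderiv a (∑ i, t i • b i)) = 0) →
        ∀ j, eval Q (b j) = 0 := by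
  classical
  choose s hs0 hs using fun j => bertini_aux b j
  refine ⟨∏ j, s j, Finset.prod_ne_zero_iff.2 fun j _ => hs0 j, fun t ht Q h1 h2 j => ?_⟩
  rw [map_prod] at ht
  have ht' : eval t (s j) ≠ 0 := Finset.prod_ne_zero_iff.1 ht j (Finset.mem_univ j)
  by_contra hj
  let z : Option σ → K := fun o => match o with
    | none => (eval Q (b j))⁻¹
    | some a => Q a
  let ψ : MvPolynomial (Option σ) (MvPolynomial (Fin N) K) →+* K := eval₂Hom (eval t) z
  have hψ : ∀ p : MvPolynomial σ K, ψ (aeval (fun a => X (some a)) p) = eval Q p := by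
    intro p
    induction p using MvPolynomial.induction_on with
    | C c =>
      rw [algHom_C]
      have : (algebraMap K (MvPolynomial (Option σ) (MvPolynomial (Fin N) K)) c) = C (C c) := rfl
      rw [this]
      simp [ψ]
    | add p q hp hq => simp only [map_add, hp, hq]
    | mul_X p i hp => simp [map_mul, hp, aeval_X, ψ, z]
  have hker : ∀ x ∈ Ideal.span (Set.range (fun o : Option (Option σ) => match o with
          | none => (1 - X none * aeval (fun a => X (some a)) (b j) :
              MvPolynomial (Option σ) (MvPolynomial (Fin N) K))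
          | some none => ∑ i, C (X i) * aeval (fun a => X (some a)) (b i)
          | some (some a) => ∑ i, C (X i) * aeval (fun a => X (some a)) (pderiv a (b i)))),
      ψ x = 0 := by
    intro x hx
    have : Ideal.span (Set.range (fun o : Option (Option σ) => match o with
          | none => (1 - X none * aeval (fun a => X (some a)) (b j) :
              MvPolynomial (Option σ) (MvPolynomial (Fin N) K))
          | some none => ∑ i, C (X i) * aeval (fun a => X (some a)) (b i)
          | some (some a) => ∑ i, C (X i) * aeval (fun a => X (some a)) (pderiv a (b i))))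
        ≤ RingHom.ker ψ := by
      rw [Ideal.span_le]
      rintro _ ⟨o, rfl⟩
      rcases o with _ | _ | a
      · change ψ (1 - X none * aeval (fun a => X (some a)) (b j)) = 0
        rw [map_sub, map_one, map_mul, hψ]
        have : ψ (X none) = (eval Q (b j))⁻¹ := by simp [ψ, z]
        rw [this, inv_mul_cancel₀ hj, sub_self]
      · change ψ (∑ i, C (X i) * aeval (fun a => X (some a)) (b i)) = 0
        rw [map_sum] at h1 ⊢
        rw [← h1]
        refine Finset.sum_congr rfl fun i _ => ?_
        rw [map_mul, hψ, smul_eval]
        simp [ψ]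
      · change ψ (∑ i, C (X i) * aeval (fun a => X (some a)) (pderiv a (b i))) = 0
        have h3 := h2 a
        rw [map_sum, map_sum] at h3
        rw [map_sum, ← h3]
        refine Finset.sum_congr rfl fun i _ => ?_
        rw [map_mul, hψ, Derivation.map_smul, smul_eval]
        simp [ψ]
    exact this hx
  have h4 := hker _ (hs j)
  apply ht'
  simpa [ψ] using h4

end Pool.Agent.H248R5
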